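import Pool.Agent.H883R2.OL.Problem

/-!
# Constrained outerplane Laman graphs: definitions

The notion `OuterplaneLaman` (triangulated simple polygon with the given vertex set) is that of
`Pool.Agent.H883R2.OL.Problem`.
-/

namespace Pool.Agent.R553.CL

open Pool.Agent.H883R2.OL

/-- The closed segment drawn for the edge `e` (a set of two points). -/
def seg (e : Finset Pt) : Set (ℝ × ℝ) := convexHull ℝ (toR '' (e : Set Pt))

/-- The union of the points and of the edges of a drawing. -/
def body (S : Finset Pt) (D : Finset (Finset Pt)) : Set (ℝ × ℝ) :=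
  toR '' (S : Set Pt) ∪ ⋃ e ∈ D, seg e

/-- The unbounded face: the points off `U` whose component in the complement of `U` is
unbounded. -/
def outerFace (U : Set (ℝ × ℝ)) : Set (ℝ × ℝ) :=
  {x | x ∈ Uᶜ ∧ ¬ Bornology.IsBounded (connectedComponentIn Uᶜ x)}

/-- `D` is (the set of edges of) an outerplane drawing on `S`. -/
structure Outerplane (S : Finset Pt) (D : Finset (Finset Pt)) : Prop where
  /-- the edges join two different points of `S` -/
  sub : ∀ e ∈ D, e ⊆ S ∧ e.card = 2
  /-- no point of `S` is on an edge, except for its endpoints -/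
  free : ∀ e ∈ D, ∀ p ∈ S, toR p ∈ seg e → p ∈ e
  /-- two edges meet at most in a common endpoint -/
  plane : ∀ e ∈ D, ∀ f ∈ D, e ≠ f → seg e ∩ seg f = seg (e ∩ f)
  /-- every point of `S` is on the boundary of the unbounded face -/
  outer : ∀ p ∈ S, toR p ∈ closure (outerFace (body S D))

/-- The edges of an input, as a set of two element sets. -/
def edgeSet (L : List (Pt × Pt)) : Finset (Finset Pt) :=
  (L.map (fun p => ({p.1, p.2} : Finset Pt))).toFinset

/-- The decision problem: given a finite set `S` of points with integer coordinates, an outerplane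
drawing `D` on `S` and an integer `W`, is there a `D`-constrained outerplane Laman graph on `S` of
weight at most `W`? (Inputs in which `D` is not an outerplane drawing on `S` are rejected.) -/
def MinConstrained (x : List Pt × List (Pt × Pt) × ℤ) : Prop :=
  Outerplane x.1.toFinset (edgeSet x.2.1) ∧
    ∃ E, OuterplaneLaman x.1.toFinset E ∧ edgeSet x.2.1 ⊆ E ∧ weight E ≤ (x.2.2 : ℝ)

/-- Without edges one has an outerplane drawing. -/
theorem outerplane_empty (S : Finset Pt) : Outerplane S ∅ := by
  refine ⟨by simp, by simp, by simp, fun p _ => ?_⟩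
  have hfin : (toR '' (S : Set Pt)).Finite := S.finite_toSet.image _
  have hb : body S ∅ = toR '' (S : Set Pt) := by simp [body]
  have hrank : 1 < Module.rank ℝ (ℝ × ℝ) := by
    rw [rank_prod', Module.rank_self]
    norm_num
  have hconn : IsConnected (toR '' (S : Set Pt))ᶜ :=
    hfin.countable.isConnected_compl_of_one_lt_rank hrank
  have hunb : ¬ Bornology.IsBounded (toR '' (S : Set Pt))ᶜ := by
    intro h
    have h2 : Bornology.IsBounded (Set.univ : Set (ℝ × ℝ)) := by
      rw [← Set.union_compl_self (toR '' (S : Set Pt))]
      exact hfin.isBounded.union h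
    exact NormedSpace.unbounded_univ ℝ (ℝ × ℝ) h2
  have hout : outerFace (body S ∅) = (toR '' (S : Set Pt))ᶜ := by
    rw [hb]
    ext x
    constructor
    · exact fun h => h.1
    · intro hx
      refine ⟨hx, ?_⟩
      rw [hconn.isPreconnected.connectedComponentIn hx]
      exact hunb
  rw [hout]
  have hd : Dense (toR '' (S : Set Pt))ᶜ := hfin.countable.dense_compl ℝ
  exact hd _

end Pool.Agent.R553.CL
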